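import Pool.Agent.helper23.CO.SpecC

open Finset Filter Topology

set_option autoImplicit false

namespace CO

open CU

theorem ERA_W {d n : ℕ} [NeZero n] (β : ℝ) (σ : Conf d n) : 0 < W β σ := Real.exp_pos _

theorem ERA_mem {d n : ℕ} [NeZero n] (R : Finset (Site d n)) (σ η : Conf d n) :
    η ∈ fo R σ ↔ ∀ x, x ∉ R → η x = σ x := by
  unfold fo
  simp

theorem ERA_self {d n : ℕ} [NeZero n] (R : Finset (Site d n)) (σ : Conf d n) : σ ∈ fo R σ :=
  (ERA_mem R σ σ).2 (fun _ _ => rfl)

theorem ERA_Z {d n : ℕ} [NeZero n] (β : ℝ) (R : Finset (Site d n)) (σ : Conf d n) :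
    0 < ∑ η ∈ fo R σ, W β η :=
  sum_pos (fun η _ => ERA_W β η) ⟨σ, ERA_self R σ⟩

theorem ERA_fo {d n : ℕ} [NeZero n] (R : Finset (Site d n)) (σ τ : Conf d n)
    (h : ∀ x, x ∉ R → σ x = τ x) : fo R σ = fo R τ := by
  ext η
  rw [ERA_mem, ERA_mem]
  constructor
  · intro h1 x hx
    rw [h1 x hx, h x hx]
  · intro h1 x hx
    rw [h1 x hx, h x hx]

theorem ERA_lin {d n : ℕ} [NeZero n] (β : ℝ) (R : Finset (Site d n)) (f g : Conf d n → ℝ)
    (a b : ℝ) (σ : Conf d n) :
    ER β R (fun η => a * f η + b * g η) σ = a * ER β R f σ + b * ER β R g σ := by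
  unfold ER
  have h1 : ∑ η ∈ fo R σ, W β η * (a * f η + b * g η) =
      a * ∑ η ∈ fo R σ, W β η * f η + b * ∑ η ∈ fo R σ, W β η * g η := by
    rw [mul_sum, mul_sum, ← sum_add_distrib]
    apply sum_congr rfl
    intro η _
    ring
  rw [h1, add_div, mul_div_assoc, mul_div_assoc]

theorem ERA_mono {d n : ℕ} [NeZero n] (β : ℝ) (R : Finset (Site d n)) (f g : Conf d n → ℝ)
    (σ : Conf d n) (h : ∀ η ∈ fo R σ, f η ≤ g η) : ER β R f σ ≤ ER β R g σ := by
  unfold ER
  apply div_le_div_of_nonneg_right _ (ERA_Z β R σ).le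
  apply sum_le_sum
  intro η hη
  exact mul_le_mul_of_nonneg_left (h η hη) (ERA_W β η).le

theorem ERA_const {d n : ℕ} [NeZero n] (β : ℝ) (R : Finset (Site d n)) (c : ℝ)
    (σ : Conf d n) : ER β R (fun _ => c) σ = c := by
  unfold ER
  rw [← sum_mul, mul_div_right_comm, div_self (ERA_Z β R σ).ne', one_mul]

theorem ERA : ERA_stmt := by
  intro d n _ β R
  refine ⟨fun f g σ h => ERA_mono β R f g σ h, fun f g a b σ => ERA_lin β R f g a b σ,
    fun c σ => ERA_const β R c σ, ?_, ?_, ?_⟩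
  · intro f σ τ h
    unfold ER
    rw [ERA_fo R σ τ h]
  · intro f g σ hg
    unfold ER
    have h1 : ∑ η ∈ fo R σ, W β η * (g η * f η) = g σ * ∑ η ∈ fo R σ, W β η * f η := by
      rw [mul_sum]
      apply sum_congr rfl
      intro η hη
      rw [hg η σ ((ERA_mem R σ η).1 hη)]
      ring
    rw [h1, mul_div_assoc]
  · intro f σ
    constructor
    · unfold ER
      rw [abs_div, abs_of_pos (ERA_Z β R σ)]
      apply div_le_div_of_nonneg_right _ (ERA_Z β R σ).le
      refine (abs_sum_le_sum_abs _ _).trans (le_of_eq ?_)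
      apply sum_congr rfl
      intro η _
      rw [abs_mul, abs_of_pos (ERA_W β η)]
    · have h1 : 0 ≤ ER β R (fun η => (f η - ER β R f σ) ^ 2) σ := by
        have := ERA_mono β R (fun _ => 0) (fun η => (f η - ER β R f σ) ^ 2) σ
          (fun η _ => sq_nonneg _)
        rw [ERA_const] at this
        exact this
      have h2 : ER β R (fun η => (f η - ER β R f σ) ^ 2) σ =
          ER β R (fun η => f η ^ 2) σ - (ER β R f σ) ^ 2 := by
        obtain ⟨c, hc⟩ : ∃ c : ℝ, c = ER β R f σ := ⟨_, rfl⟩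
        have e1 : (fun η : Conf d n => (f η - ER β R f σ) ^ 2) =
            fun η => 1 * (fun η => f η ^ 2) η +
              1 * ((fun η => (-2 * c) * f η + c ^ 2 * (fun _ => (1 : ℝ)) η) η) := by
          funext η
          rw [← hc]
          ring
        rw [e1, ERA_lin, ERA_lin, ERA_const, ← hc]
        ring
      linarith

end CO
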