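import Pool.Agent.helper23.CO.SpecC

open Finset Filter Topology

set_option autoImplicit false

namespace CO

open CU

theorem ERT_mem {d n : ℕ} [NeZero n] (R : Finset (Site d n)) (σ η : Conf d n) :
    η ∈ fo R σ ↔ ∀ x, x ∉ R → η x = σ x := by
  unfold fo
  simp

theorem ERT_Z {d n : ℕ} [NeZero n] (β : ℝ) (R : Finset (Site d n)) (σ : Conf d n) :
    0 < ∑ η ∈ fo R σ, W β η :=
  sum_pos (fun η _ => Real.exp_pos _) ⟨σ, (ERT_mem R σ σ).2 (fun _ _ => rfl)⟩

theorem ERT_fo {d n : ℕ} [NeZero n] (R : Finset (Site d n)) (σ τ : Conf d n)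
    (h : τ ∈ fo R σ) : fo R τ = fo R σ := by
  rw [ERT_mem] at h
  ext η
  rw [ERT_mem, ERT_mem]
  constructor
  · intro h1 x hx
    rw [h1 x hx, h x hx]
  · intro h1 x hx
    rw [h1 x hx, h x hx]

theorem ERT_tower {d n : ℕ} [NeZero n] (β : ℝ) (R R' : Finset (Site d n)) (f : Conf d n → ℝ)
    (σ : Conf d n) (hR : R ⊆ R') : ER β R' (ER β R f) σ = ER β R' f σ := by
  have h1 : ∑ η ∈ fo R' σ, W β η * ER β R f η = ∑ ζ ∈ fo R' σ, W β ζ * f ζ := by
    have e1 : ∀ η ∈ fo R' σ, W β η * ER β R f η =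
        ∑ ζ ∈ fo R η, W β η * (W β ζ * f ζ) / ∑ ξ ∈ fo R ζ, W β ξ := by
      intro η _
      unfold ER
      rw [mul_div_assoc', mul_sum, sum_div]
      apply sum_congr rfl
      intro ζ hζ
      rw [ERT_fo R η ζ hζ]
    rw [sum_congr rfl e1]
    rw [sum_comm' (s' := fun ζ => fo R ζ) (t' := fo R' σ)]
    · apply sum_congr rfl
      intro ζ _
      rw [← sum_div, ← sum_mul, mul_div_right_comm, div_self (ERT_Z β R ζ).ne', one_mul]
    · intro η ζ
      simp only [ERT_mem]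
      constructor
      · rintro ⟨h1, h2⟩
        refine ⟨fun x hx => (h2 x hx).symm, fun x hx => ?_⟩
        rw [h2 x (fun h => hx (hR h)), h1 x hx]
      · rintro ⟨h1, h2⟩
        refine ⟨fun x hx => ?_, fun x hx => (h1 x hx).symm⟩
        rw [h1 x (fun h => hx (hR h)), h2 x hx]
  have h2 : ER β R' (ER β R f) σ = (∑ η ∈ fo R' σ, W β η * ER β R f η) /
      ∑ η ∈ fo R' σ, W β η := rfl
  rw [h2, h1]
  rfl

theorem ERT (hERA : ERA_stmt) : ERT_stmt := by
  intro d n _ β R f g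
  have hEx : ∀ (h : Conf d n → ℝ) (σ : Conf d n), Ex β h = ER β univ h σ := by
    intro h σ
    have hf : fo (univ : Finset (Site d n)) σ = univ := by
      ext η
      rw [ERT_mem]
      simp
    unfold Ex ER
    rw [hf]
  have hT : ∀ h : Conf d n → ℝ, Ex β (ER β R h) = Ex β h := by
    intro h
    rw [hEx _ (fun _ => true), hEx h (fun _ => true)]
    exact ERT_tower β R univ h _ (subset_univ _)
  obtain ⟨_, _, _, h4, h5, _⟩ := hERA d n β R
  refine ⟨fun R' σ h => ERT_tower β R R' f σ h, fun σ => hEx f σ, hT f, ?_⟩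
  have e1 : Ex β (fun σ => ER β R f σ * g σ) = Ex β (fun σ => ER β R f σ * ER β R g σ) := by
    rw [← hT (fun σ => ER β R f σ * g σ)]
    congr 1
    funext σ
    exact h5 g (ER β R f) σ (fun σ τ h => h4 f σ τ h)
  have e2 : Ex β (fun σ => f σ * ER β R g σ) = Ex β (fun σ => ER β R f σ * ER β R g σ) := by
    rw [← hT (fun σ => f σ * ER β R g σ)]
    congr 1
    funext σ
    have := h5 f (ER β R g) σ (fun σ τ h => h4 g σ τ h)
    rw [mul_comm (ER β R f σ)]
    rw [← this]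
    congr 1
    funext η
    ring
  rw [e1, e2]

end CO
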