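import Pool.Agent.helper23.CO.SpecC

open Finset Filter Topology

set_option autoImplicit false

namespace CO

open CU

theorem NRA_pos {d n : ℕ} [NeZero n] (β : ℝ) (Φ : Conf d n → ℝ) (hΦ : ∀ σ, 0 ≤ Φ σ)
    (η : Conf d n) (hη : 0 < Φ η) : 0 < Ex β Φ := by
  unfold Ex
  apply div_pos
  · apply sum_pos'
    · intro σ _
      exact mul_nonneg (Real.exp_pos _).le (hΦ σ)
    · exact ⟨η, mem_univ _, mul_pos (Real.exp_pos _) hη⟩
  · exact sum_pos (fun σ _ => Real.exp_pos _) ⟨η, mem_univ _⟩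

theorem NRA (hERA : ERA_stmt) (_hERT : ERT_stmt) (hLIN : CU.LIN_stmt) : NRA_stmt := by
  classical
  intro d n _ β X B p1 S A G f Φ hX hf hΦ hA hAG hp1 hlip
  have hlin : ∀ (f g : Conf d n → ℝ) (a b : ℝ),
      Ex β (fun σ : Conf d n => a * f σ + b * g σ) = a * Ex β f + b * Ex β g :=
    fun f g a b => (hLIN d n β f g a b 0).2.2.1
  have hmono : ∀ (f g : Conf d n → ℝ), (∀ σ, f σ ≤ g σ) → Ex β f ≤ Ex β g :=
    fun f g h => (hLIN d n β f g 0 0 0).2.2.2.1 h
  have hconst : ∀ a : ℝ, Ex β (fun _ : Conf d n => a) = a :=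
    fun a => (hLIN d n β (fun _ => 0) (fun _ => 0) a 0 0).2.2.2.2
  have hB : 0 ≤ B := (abs_nonneg _).trans (hf (fun _ => true))
  obtain ⟨e1, _, e3, _, _, e6⟩ := hERA d n β S
  have hu : ∀ σ, |ER β S f σ| ≤ B := by
    intro σ
    refine ((e6 f σ).1).trans ?_
    have := e1 (fun η => |f η|) (fun _ => B) σ (fun η _ => hf η)
    rw [e3] at this
    exact this
  -- probability of G
  have hG : 3 / 10 ≤ PrE β G := by
    have h1 : PrE β A ≤ PrE β G + PrE β (A \ G) := by
      unfold PrE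
      have h2 := hlin (G.indicator fun _ => 1) ((A \ G).indicator fun _ => 1) 1 1
      rw [one_mul, one_mul] at h2
      rw [← h2]
      apply hmono
      intro σ
      by_cases hσA : σ ∈ A
      · by_cases hσG : σ ∈ G
        · simp [Set.indicator, hσA, hσG]
        · simp [Set.indicator, hσA, hσG]
      · by_cases hσG : σ ∈ G
        · simp [Set.indicator, hσA, hσG]
        · simp [Set.indicator, hσA, hσG]
    linarith
  have hΦ0 : 0 ≤ Ex β Φ := by
    have := hmono (fun _ => 0) Φ hΦ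
    rw [hconst] at this
    exact this
  obtain ⟨η₀, hη₀G, hη₀⟩ : ∃ η ∈ G, Φ η ≤ 4 * Ex β Φ := by
    by_contra hcon
    push Not at hcon
    have h1 : 4 * Ex β Φ * PrE β G ≤ Ex β Φ := by
      have h2 : Ex β (fun σ => 4 * Ex β Φ * (G.indicator (fun _ => (1 : ℝ))) σ +
          0 * (fun _ => (0 : ℝ)) σ) ≤ Ex β Φ := by
        apply hmono
        intro σ
        by_cases hσ : σ ∈ G
        · have := hcon σ hσ
          simp only [Set.indicator, hσ, if_true, mul_one, mul_zero, add_zero]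
          exact this.le
        · simp only [Set.indicator, hσ, if_false, mul_zero, add_zero]
          exact hΦ σ
      rw [hlin] at h2
      unfold PrE
      linarith
    have h2 : Ex β Φ = 0 := by nlinarith
    have hGne : G.Nonempty := by
      by_contra hem
      rw [Set.not_nonempty_iff_eq_empty] at hem
      rw [hem] at hG
      unfold PrE at hG
      simp only [Set.indicator_empty] at hG
      rw [hconst] at hG
      norm_num at hG
    obtain ⟨η, hη⟩ := hGne
    have h3 := hcon η hη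
    rw [h2, mul_zero] at h3
    have := NRA_pos β Φ hΦ η h3
    linarith
  refine ⟨ER β S f η₀, hu η₀, ?_⟩
  have hpt : ∀ σ : Conf d n, A.indicator (fun _ => (1 : ℝ)) σ * |f σ - ER β S f η₀| ≤
      1 * (fun σ => |f σ - ER β S f σ|) σ + 1 * ((fun σ => X * (fun σ => Φ σ) σ +
        1 * ((fun σ => (2 * B) * ((A \ G).indicator (fun _ => (1 : ℝ))) σ +
          1 * (fun _ => X * Φ η₀) σ) σ)) σ) := by
    intro σ
    show A.indicator (fun _ => (1 : ℝ)) σ * |f σ - ER β S f η₀| ≤
      1 * |f σ - ER β S f σ| + 1 * (X * Φ σ + 1 * (2 * B *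
        (A \ G).indicator (fun _ => (1 : ℝ)) σ + 1 * (X * Φ η₀)))
    have hXΦ : 0 ≤ X * Φ σ := mul_nonneg hX (hΦ σ)
    have hXΦ0 : 0 ≤ X * Φ η₀ := mul_nonneg hX (hΦ η₀)
    have htri : |f σ - ER β S f η₀| ≤ |f σ - ER β S f σ| + |ER β S f σ - ER β S f η₀| :=
      abs_sub_le _ _ _
    have habs := abs_nonneg (f σ - ER β S f σ)
    by_cases hσA : σ ∈ A
    · by_cases hσG : σ ∈ G
      · have h1 := hlip σ hσG η₀ hη₀G
        have h2 : A.indicator (fun _ => (1 : ℝ)) σ = 1 := by simp [hσA]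
        have h3 : (A \ G).indicator (fun _ => (1 : ℝ)) σ = 0 := by simp [hσG]
        rw [h2, h3]
        rw [mul_add] at h1
        linarith
      · have h1 : |ER β S f σ - ER β S f η₀| ≤ 2 * B := by
          have h4 := hu σ
          have h5 := hu η₀
          have h6 := abs_sub (ER β S f σ) (ER β S f η₀)
          linarith
        have h2 : A.indicator (fun _ => (1 : ℝ)) σ = 1 := by simp [hσA]
        have h3 : (A \ G).indicator (fun _ => (1 : ℝ)) σ = 1 := by simp [hσG, hσA]
        rw [h2, h3]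
        linarith
    · have h2 : A.indicator (fun _ => (1 : ℝ)) σ = 0 := by simp [hσA]
      have h3 : (A \ G).indicator (fun _ => (1 : ℝ)) σ = 0 := by simp [hσA]
      rw [h2, h3]
      linarith
  have hfin := hmono _ _ hpt
  rw [hlin, hlin, hlin, hconst] at hfin
  have h7 : 2 * B * Ex β ((A \ G).indicator (fun _ => (1 : ℝ))) ≤ 2 * B * p1 :=
    mul_le_mul_of_nonneg_left hAG (by linarith)
  have h8 : X * Φ η₀ ≤ X * (4 * Ex β Φ) := mul_le_mul_of_nonneg_left hη₀ hX
  have h9 : Ex β (fun σ : Conf d n => Φ σ) = Ex β Φ := rfl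
  rw [h9] at hfin
  linarith

end CO
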