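import Pool.Agent.helper23.CO.SpecC

open Finset Filter Topology

set_option autoImplicit false

namespace CO

open CU

theorem GDS_mI {d n : ℕ} [NeZero n] (hd : 0 < d) (I : Finset (ZMod n)) (σ : Conf d n) :
    -1 ≤ mI hd I σ := by
  unfold mI
  rcases Nat.eq_zero_or_pos (slab hd I : Finset (Site d n)).card with h | h
  · rw [h]
    simp
  · have hp : (0 : ℝ) < ((slab hd I : Finset (Site d n)).card : ℝ) := by exact_mod_cast h
    rw [le_div_iff₀ hp]
    have h1 : ∑ x ∈ (slab hd I : Finset (Site d n)), (-1 : ℝ) ≤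
        ∑ x ∈ (slab hd I : Finset (Site d n)), sg (σ x) := by
      apply sum_le_sum
      intro x _
      unfold sg
      split_ifs <;> norm_num
    rw [sum_const, nsmul_eq_mul] at h1
    linarith

theorem GDS (hERA : ERA_stmt) (hERT : ERT_stmt) (hLIN : CU.LIN_stmt) : GDS_stmt := by
  classical
  intro d n _ hd β m κ p0 IS I2 hκ hm3 hm1 h1 h2 h3
  have hlin : ∀ (f g : Conf d n → ℝ) (a b : ℝ),
      Ex β (fun σ : Conf d n => a * f σ + b * g σ) = a * Ex β f + b * Ex β g :=
    fun f g a b => (hLIN d n β f g a b 0).2.2.1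
  have hmono : ∀ (f g : Conf d n → ℝ), (∀ σ, f σ ≤ g σ) → Ex β f ≤ Ex β g :=
    fun f g h => (hLIN d n β f g 0 0 0).2.2.2.1 h
  obtain ⟨e1, e2, e3, e4, e5, e6⟩ := hERA d n β (slab hd IS)
  obtain ⟨i1, hi1⟩ : ∃ i1 : Conf d n → ℝ, i1 = Set.indicator
    {σ : Conf d n | |Mg σ / (Fintype.card (Site d n) : ℝ)| ≤ m - κ} (fun _ => 1) := ⟨_, rfl⟩
  obtain ⟨i2, hi2⟩ : ∃ i2 : Conf d n → ℝ, i2 = Set.indicator
    {σ : Conf d n | κ ≤ |mI hd (univ \ IS) σ - Mg σ / (Fintype.card (Site d n) : ℝ)|}
      (fun _ => 1) := ⟨_, rfl⟩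
  obtain ⟨i3, hi3⟩ : ∃ i3 : Conf d n → ℝ, i3 = Set.indicator
    {σ : Conf d n | κ ≤ |mI hd I2 σ - Mg σ / (Fintype.card (Site d n) : ℝ)|}
      (fun _ => 1) := ⟨_, rfl⟩
  have p1 : Ex β i1 ≤ p0 := by rw [hi1]; exact h1
  have p2 : Ex β i2 ≤ p0 := by rw [hi2]; exact h2
  have p3 : Ex β i3 ≤ p0 := by rw [hi3]; exact h3
  have hv1 : ∀ σ, i1 σ = if |Mg σ / (Fintype.card (Site d n) : ℝ)| ≤ m - κ then 1 else 0 := by
    intro σ
    rw [hi1]
    simp [Set.indicator]
  have hv2 : ∀ σ, i2 σ = if κ ≤ |mI hd (univ \ IS) σ - Mg σ / (Fintype.card (Site d n) : ℝ)|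
      then 1 else 0 := by
    intro σ
    rw [hi2]
    simp [Set.indicator]
  have hv3 : ∀ σ, i3 σ = if κ ≤ |mI hd I2 σ - Mg σ / (Fintype.card (Site d n) : ℝ)|
      then 1 else 0 := by
    intro σ
    rw [hi3]
    simp [Set.indicator]
  have n1 : ∀ σ, 0 ≤ i1 σ := by
    intro σ
    rw [hv1]
    split_ifs <;> norm_num
  have n2 : ∀ σ, 0 ≤ i2 σ := by
    intro σ
    rw [hv2]
    split_ifs <;> norm_num
  have n3 : ∀ σ, 0 ≤ i3 σ := by
    intro σ
    rw [hv3]
    split_ifs <;> norm_num
  obtain ⟨g, hg⟩ : ∃ g : Conf d n → ℝ, ∀ σ, g σ = if m - 2 * κ ≤ mI hd (univ \ IS) σ then 1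
    else 0 := ⟨fun σ => if m - 2 * κ ≤ mI hd (univ \ IS) σ then 1 else 0, fun _ => rfl⟩
  obtain ⟨f, hf⟩ : ∃ f : Conf d n → ℝ, ∀ σ, f σ = if mI hd I2 σ < m - 2 * κ then 1
    else 0 := ⟨fun σ => if mI hd I2 σ < m - 2 * κ then 1 else 0, fun _ => rfl⟩
  have hg0 : ∀ σ, 0 ≤ g σ := by
    intro σ
    rw [hg]
    split_ifs <;> norm_num
  have hf0 : ∀ σ, 0 ≤ f σ := by
    intro σ
    rw [hf]
    split_ifs <;> norm_num
  have hb0 : ∀ σ, 0 ≤ ER β (slab hd IS) f σ := by
    intro σ
    have := e1 (fun _ => 0) f σ (fun η _ => hf0 η)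
    rw [e3] at this
    exact this
  -- g is constant on the blocks
  have hgc : ∀ σ τ : Conf d n, (∀ x, x ∉ (slab hd IS : Finset (Site d n)) → σ x = τ x) →
      g σ = g τ := by
    intro σ τ hst
    rw [hg, hg]
    have : mI hd (univ \ IS) σ = mI hd (univ \ IS) τ := by
      unfold mI
      congr 1
      apply sum_congr rfl
      intro x hx
      rw [hst x]
      intro hx2
      unfold slab at hx hx2
      have h5 := (mem_filter.1 hx).2
      have h6 := (mem_filter.1 hx2).2
      exact (mem_sdiff.1 h5).2 h6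
    rw [this]
  have hERg : ER β (slab hd IS) g = g := by
    funext σ
    have h5 := e5 (fun _ => 1) g σ hgc
    rw [e3, mul_one] at h5
    rw [← h5]
    congr 1
    funext η
    ring
  have hgb : Ex β (fun σ => g σ * ER β (slab hd IS) f σ) = Ex β (fun σ => g σ * f σ) := by
    have h5 := (hERT d n β (slab hd IS) f g).2.2.2
    rw [hERg] at h5
    have h6 : (fun σ : Conf d n => g σ * ER β (slab hd IS) f σ) =
        fun σ => ER β (slab hd IS) f σ * g σ := by
      funext σ
      ring
    have h7 : (fun σ : Conf d n => g σ * f σ) = fun σ => f σ * g σ := by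
      funext σ
      ring
    rw [h6, h7]
    exact h5
  have hgf : Ex β (fun σ => g σ * f σ) ≤ 3 * p0 := by
    have h5 : ∀ σ : Conf d n, (fun σ => g σ * f σ) σ ≤ 1 * i1 σ + 1 * (fun σ => 1 * i2 σ +
        1 * i3 σ) σ := by
      intro σ
      show g σ * f σ ≤ 1 * i1 σ + 1 * (1 * i2 σ + 1 * i3 σ)
      have a1 := n1 σ
      have a2 := n2 σ
      have a3 := n3 σ
      by_cases c1 : |Mg σ / (Fintype.card (Site d n) : ℝ)| ≤ m - κ
      · have : g σ * f σ ≤ 1 := by
          rw [hg, hf]
          split_ifs <;> norm_num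
        rw [hv1, if_pos c1]
        linarith
      · by_cases c2 : κ ≤ |mI hd (univ \ IS) σ - Mg σ / (Fintype.card (Site d n) : ℝ)|
        · have : g σ * f σ ≤ 1 := by
            rw [hg, hf]
            split_ifs <;> norm_num
          rw [hv2, if_pos c2]
          linarith
        · by_cases c3 : κ ≤ |mI hd I2 σ - Mg σ / (Fintype.card (Site d n) : ℝ)|
          · have : g σ * f σ ≤ 1 := by
              rw [hg, hf]
              split_ifs <;> norm_num
            rw [hv3, if_pos c3]
            linarith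
          · have hz : g σ * f σ = 0 := by
              rw [hg, hf]
              by_cases c4 : m - 2 * κ ≤ mI hd (univ \ IS) σ
              · by_cases c5 : mI hd I2 σ < m - 2 * κ
                · exfalso
                  push Not at c1 c2 c3
                  obtain ⟨b1, b2⟩ := abs_lt.1 c2
                  obtain ⟨b3, b4⟩ := abs_lt.1 c3
                  rcases lt_abs.1 c1 with b5 | b5
                  · linarith
                  · linarith
                · simp [c5]
              · simp [c4]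
            rw [hz]
            linarith
    have h6 := hmono _ _ h5
    rw [hlin, hlin] at h6
    linarith
  have hpt : ∀ σ : Conf d n, Set.indicator {σ : Conf d n | 0 < Mg σ ∧
      ER β (slab hd IS) (mI hd I2) σ < m - 3 * κ} (fun _ => (1 : ℝ)) σ ≤
      1 * i1 σ + 1 * (fun σ => 1 * i2 σ + 1 * (fun σ => 1 * i3 σ +
        (2 / κ) * (fun σ => g σ * ER β (slab hd IS) f σ) σ) σ) σ := by
    intro σ
    show Set.indicator {σ : Conf d n | 0 < Mg σ ∧
      ER β (slab hd IS) (mI hd I2) σ < m - 3 * κ} (fun _ => (1 : ℝ)) σ ≤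
      1 * i1 σ + 1 * (1 * i2 σ + 1 * (1 * i3 σ +
        (2 / κ) * (g σ * ER β (slab hd IS) f σ)))
    have a1 := n1 σ
    have a2 := n2 σ
    have a3 := n3 σ
    have a4 : 0 ≤ (2 / κ) * (g σ * ER β (slab hd IS) f σ) :=
      mul_nonneg (by positivity) (mul_nonneg (hg0 σ) (hb0 σ))
    by_cases hT : σ ∈ {σ : Conf d n | 0 < Mg σ ∧
      ER β (slab hd IS) (mI hd I2) σ < m - 3 * κ}
    · rw [Set.indicator_of_mem hT]
      obtain ⟨hM, hlt⟩ := hT
      by_cases c1 : |Mg σ / (Fintype.card (Site d n) : ℝ)| ≤ m - κ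
      · rw [hv1, if_pos c1]
        linarith
      · by_cases c2 : κ ≤ |mI hd (univ \ IS) σ - Mg σ / (Fintype.card (Site d n) : ℝ)|
        · rw [hv2, if_pos c2]
          linarith
        · push Not at c1 c2
          obtain ⟨b1, b2⟩ := abs_lt.1 c2
          have hMN : 0 ≤ Mg σ / (Fintype.card (Site d n) : ℝ) :=
            div_nonneg hM.le (Nat.cast_nonneg _)
          rw [abs_of_nonneg hMN] at c1
          have hgσ : g σ = 1 := by
            rw [hg, if_pos (by linarith)]
          have hb : κ / 2 < ER β (slab hd IS) f σ := by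
            by_contra hcon
            push Not at hcon
            have hpt2 : ∀ η ∈ fo (slab hd IS) σ, (m - 2 * κ) * (fun _ => (1 : ℝ)) η +
                (-(1 + m - 2 * κ)) * f η ≤ mI hd I2 η := by
              intro η _
              show (m - 2 * κ) * 1 + (-(1 + m - 2 * κ)) * f η ≤ mI hd I2 η
              rw [hf]
              split_ifs with c5
              · have := GDS_mI hd I2 η
                linarith
              · linarith
            have h7 := e1 _ _ σ hpt2
            rw [e2, e3] at h7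
            have h8 : (1 + m - 2 * κ) * ER β (slab hd IS) f σ ≤ 2 * (κ / 2) := by
              apply mul_le_mul (by linarith) hcon (hb0 σ) (by norm_num)
            linarith
          have hb2 : 1 ≤ (2 / κ) * (g σ * ER β (slab hd IS) f σ) := by
            rw [hgσ, one_mul]
            have h9 : (2 / κ) * (κ / 2) = 1 := by field_simp
            rw [← h9]
            exact mul_le_mul_of_nonneg_left hb.le (by positivity)
          linarith
    · rw [Set.indicator_of_notMem hT]
      linarith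
  have hfin := hmono _ _ hpt
  rw [hlin, hlin, hlin, hgb] at hfin
  have h10 : (2 / κ) * Ex β (fun σ => g σ * f σ) ≤ (2 / κ) * (3 * p0) :=
    mul_le_mul_of_nonneg_left hgf (by positivity)
  have h11 : (3 + 6 / κ) * p0 = 3 * p0 + (2 / κ) * (3 * p0) := by ring
  unfold PrE
  rw [h11]
  linarith

end CO
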